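import Mathlib
import Pool.Agent.H740R3.BQMain

set_option autoImplicit false

namespace Pool.Agent.Results.MP_7da968_an.NonCyclicSquare

universe u

/-- `T` is hypercyclic: some orbit is dense -/
def Hypercyclic {X : Type u} [NormedAddCommGroup X] [NormedSpace ℂ X] (T : X →L[ℂ] X) : Prop :=
  ∃ x : X, Dense (Set.range (fun n : ℕ => (T ^ n) x))

/-- `T` is cyclic: the linear span of some orbit is dense -/
def Cyclic {X : Type u} [NormedAddCommGroup X] [NormedSpace ℂ X] (T : X →L[ℂ] X) : Prop :=
  ∃ x : X, Dense ((Submodule.span ℂ (Set.range (fun n : ℕ => (T ^ n) x)) : Submodule ℂ X) : Set X)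

/-- Every separable infinite-dimensional complex Banach space carries a hypercyclic operator `T`
such that `T ⊕ T` is not cyclic. -/
theorem result (X : Type u) [NormedAddCommGroup X] [NormedSpace ℂ X] [CompleteSpace X]
    [TopologicalSpace.SeparableSpace X] (hX : ¬ FiniteDimensional ℂ X) :
    ∃ T : X →L[ℂ] X, Hypercyclic T ∧ ¬ Cyclic (T.prodMap T) := by
  obtain ⟨T, h1, h2, _⟩ := Pool.Agent.H740R3.BQ.every X hX
  exact ⟨T, h1, h2⟩

end Pool.Agent.Results.MP_7da968_an.NonCyclicSquare
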